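import Pool.Agent.W_MP_a18a3c_h2.Final

/-!
Deterministic online makespan scheduling on `m` identical machines: for every number of machines
`m ≥ 10 ^ 14` we have `1.8848 ≤ c_m ≤ c^*`.
-/

namespace Pool.Agent.Results.MP_a18a3c_lc.LowerBound

open MP_a18a3c_h2

/-- For every `m ≥ 10 ^ 14`: `1.8848 ≤ c_m ≤ c^*`.  In particular `c^* ≥ 1.8848`. -/
theorem result (m : ℕ) (hm : 10 ^ 14 ≤ m) : (1.8848 : ℝ) ≤ cRatio m ∧ cRatio m ≤ cStar := by
  refine ⟨?_, cRatio_le_cStar (le_trans (by norm_num) hm)⟩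
  have h := bound m hm
  have e : ((PP : ℕ) : ℝ) / ((QQ : ℕ) : ℝ) = 1.8848 := by norm_num
  rwa [e] at h

end Pool.Agent.Results.MP_a18a3c_lc.LowerBound
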