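import Pool.Agent.W_MP_a18a3c_p66.Main
import Pool.Agent.W_MP_a18a3c_p66.Cert

/-!
Deterministic online makespan scheduling on `m` identical machines: an algorithm whose makespan
is always at most `c` times one of the classical lower bounds on the optimum (the average load and
the pigeonhole bounds) is `c`-competitive, but `c ≥ 1.9178` if there are at least `10 ^ 5`
machines.
-/

namespace Pool.Agent.Results.MP_a18a3c_lc.PigeonholeBarrier

open MP_a18a3c_h2 MP_a18a3c_p66

/-- Let `m ≥ 10 ^ 5`.  If on every instance the makespan of the deterministic online algorithm `A`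
is at most `c` times the average load or at most `c` times a pigeonhole bound, then `A` is
`c`-competitive, and `c ≥ 1.9178`. -/
theorem result (m : ℕ) (hm : 10 ^ 5 ≤ m) (A : Alg m) (c : ℝ) (hA : IsCertified A c) :
    IsCompetitive A c ∧ (1.9178 : ℝ) ≤ c := by
  have h1 : (1.9178 : ℝ) ≤ c := by
    have h := lower hm hA
    unfold cc at h
    norm_num at h ⊢
    exact h
  refine ⟨?_, h1⟩
  have hm0 : 0 < m := lt_of_lt_of_le (by norm_num) hm
  have hc : 0 ≤ c := le_trans (by norm_num) h1
  intro h hh
  rcases hA h hh with h2 | ⟨k, h2⟩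
  · exact le_trans h2 (mul_le_mul_of_nonneg_left (average_le_opt hm0 h) hc)
  · exact le_trans h2 (mul_le_mul_of_nonneg_left (pigeon_le_opt hm0 hh k) hc)

end Pool.Agent.Results.MP_a18a3c_lc.PigeonholeBarrier
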